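import Mathlib
import Pool.Agent.H26.Whitley

set_option autoImplicit false

namespace Pool.Agent.Results.MP_0764b2_an.ShadowNotGH

open Pool.Agent.H26.Whitley
open scoped ENNReal

section
variable {Y : Type} [NormedAddCommGroup Y] [NormedSpace ℂ Y]

/-- the shadowing property -/
def Shadowing (T : Y ≃L[ℂ] Y) : Prop :=
  ∃ K : ℝ, 0 < K ∧ ∀ (z : ℤ → Y) (C : ℝ), (∀ n, ‖z n‖ ≤ C) →
    ∃ y : ℤ → Y, (∀ n, y (n + 1) - T (y n) = z n) ∧ ∀ n, ‖y n‖ ≤ K * C

/-- spectral radius below one -/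
def SprLt (U : Y →L[ℂ] Y) : Prop := spectralRadius ℂ U < 1

/-- generalized hyperbolicity -/
def GenHyp (T : Y ≃L[ℂ] Y) : Prop :=
  ∃ (M N : Submodule ℂ Y) (TM : M →L[ℂ] M) (TN : N →L[ℂ] N),
    IsClosed (M : Set Y) ∧ IsClosed (N : Set Y) ∧ IsCompl M N ∧
    (∀ x : M, (TM x : Y) = T x) ∧ (∀ x : N, (TN x : Y) = T.symm x) ∧
    SprLt TM ∧ SprLt TN

/-- `B` is the space of all bounded bilateral `Y`-valued sequences with the supremum norm,
`ι` being the inclusion in the space of all sequences -/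
def IsLinf {B : Type} [NormedAddCommGroup B] [NormedSpace ℂ B] (ι : B →ₗ[ℂ] (ℤ → Y)) : Prop :=
  Function.Injective ι ∧ (∀ x, IsLUB (Set.range fun n => ‖ι x n‖) ‖x‖) ∧
    ∀ u : ℤ → Y, BddAbove (Set.range fun n => ‖u n‖) → ∃ x, ι x = u

/-- `σ` is the shift operator generated by `S` -/
def IsShift {B : Type} [NormedAddCommGroup B] [NormedSpace ℂ B] (ι : B →ₗ[ℂ] (ℤ → Y))
    (S : ℤ → Y ≃L[ℂ] Y) (σ : B ≃L[ℂ] B) : Prop :=
  (∃ C : ℝ, ∀ n x, ‖S n x‖ ≤ C * ‖x‖ ∧ ‖(S n).symm x‖ ≤ C * ‖x‖) ∧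
    ∀ x n, ι (σ x) n = S (n + 1) (ι x (n + 1))

theorem unit_of (U : Y →L[ℂ] Y) (h : spectralRadius ℂ U < 1) :
    ∃ V : Y →L[ℂ] Y, ∀ x, V x - U (V x) = x := by
  have : (1 : ℂ) ∈ resolventSet ℂ U := spectrum.mem_resolventSet_of_spectralRadius_lt (by simpa using h)
  obtain ⟨v, hv⟩ := (spectrum.mem_resolventSet_iff.mp this).exists_right_inv
  exact ⟨v, fun x => by simpa using congrArg (fun f : Y →L[ℂ] Y => f x) hv⟩

theorem right_inv [CompleteSpace Y] (T : Y ≃L[ℂ] Y) (h : GenHyp T) :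
    ∃ R : Y →L[ℂ] Y, ∀ z, T (R z) - R z = z := by
  obtain ⟨M, N, TM, TN, hM, hN, hc, h1, h2, h3, h4⟩ := h
  have ht := Submodule.IsCompl.isTopCompl_of_isClosed hc hM hN
  obtain ⟨V, hV⟩ := unit_of TM h3
  obtain ⟨W, hW⟩ := unit_of TN h4
  refine ⟨N.subtypeL ∘L TN ∘L W ∘L N.projectionOntoL M ht.symm -
    M.subtypeL ∘L V ∘L M.projectionOntoL N ht, fun z => ?_⟩
  have e := Submodule.projectionL_add_projectionL_eq_self ht z
  rw [← Submodule.coe_projectionOntoL_apply, ← Submodule.coe_projectionOntoL_apply] at e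
  have e1 := congrArg Subtype.val (hV (M.projectionOntoL N ht z))
  have e2 := congrArg Subtype.val (hW (N.projectionOntoL M ht.symm z))
  simp only [Submodule.coe_sub, h1, h2] at e1 e2
  simp only [ContinuousLinearMap.sub_apply, ContinuousLinearMap.comp_apply,
    Submodule.subtypeL_apply, h2, map_sub, ContinuousLinearEquiv.apply_symm_apply]
  linear_combination (norm := module) e + e1 + e2

theorem L1 [CompleteSpace Y] (t : ℤ → Y) (C : ℝ) (ht : ∀ n, ‖t n‖ ≤ C) (e : ℤ) :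
    ∃ b : ℤ → Y, (∀ n, ‖b n‖ ≤ 2 * C) ∧ ∀ n, b n - (2⁻¹ : ℂ) • b (n + e) = t n := by
  have hb : ∀ n (j : ℕ), ‖(2⁻¹ : ℂ) ^ j • t (n + j * e)‖ ≤ (1 / 2 : ℝ) ^ j * C := by
    intro n j
    rw [norm_smul, norm_pow]
    exact mul_le_mul (by simp) (ht _) (norm_nonneg _) (by positivity)
  have hs : HasSum (fun j : ℕ => (1 / 2 : ℝ) ^ j * C) (2 * C) := hasSum_geometric_two.mul_right C
  refine ⟨fun n => ∑' j : ℕ, (2⁻¹ : ℂ) ^ j • t (n + j * e),
    fun n => tsum_of_norm_bounded hs (hb n), fun n => ?_⟩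
  simp only
  rw [(Summable.of_norm_bounded hs.summable (hb n)).tsum_eq_zero_add,
    ← (Summable.of_norm_bounded hs.summable (hb (n + e))).tsum_const_smul]
  simp only [pow_zero, one_smul, Nat.cast_zero, zero_mul, add_zero, smul_smul, pow_succ']
  rw [add_sub_assoc, add_eq_left, sub_eq_zero]
  refine tsum_congr fun j => ?_
  congr 2
  push_cast; ring

theorem L2 [CompleteSpace Y] (t : ℤ → Y) (C : ℝ) (ht : ∀ n, ‖t n‖ ≤ C) :
    ∃ b : ℤ → Y, (∀ n, ‖b n‖ ≤ 2 * C) ∧ ∀ n, b n - (2 : ℂ) • b (n + 1) = t n := by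
  obtain ⟨b, h1, h2⟩ := L1 (fun m => -(2⁻¹ : ℂ) • t (m - 1)) C (fun m => by
    rw [norm_smul]
    have := ht (m - 1)
    have h0 := norm_nonneg (t (m - 1))
    norm_num; linarith) (-1)
  refine ⟨b, h1, fun n => ?_⟩
  have := h2 (n + 1)
  simp only [add_neg_cancel_right, add_sub_cancel_right] at this
  linear_combination (norm := module) (-2 : ℂ) • this

theorem vanish (v : ℕ → Y) (C : ℝ) (hv : ∀ j, ‖v j‖ ≤ C) (h : ∀ j, v (j + 1) = (2 : ℂ) • v j) :
    v 0 = 0 := by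
  have e : ∀ j, ‖v j‖ = 2 ^ j * ‖v 0‖ := by
    intro j
    induction j with
    | zero => simp
    | succ j ih => rw [h, norm_smul, ih]; simp; ring
  by_contra h0
  have hp := norm_pos_iff.mpr h0
  obtain ⟨j, hj⟩ := pow_unbounded_of_one_lt (C / ‖v 0‖) (one_lt_two (α := ℝ))
  rw [div_lt_iff₀ hp, ← e] at hj
  linarith [hv j]

noncomputable def shift (S : ℤ → Y ≃L[ℂ] Y) (C : ℝ) (hC : 0 ≤ C) (h1 : ∀ n x, ‖S n x‖ ≤ C * ‖x‖)
    (h2 : ∀ n x, ‖(S n).symm x‖ ≤ C * ‖x‖) :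
    lp (fun _ : ℤ => Y) ∞ ≃L[ℂ] lp (fun _ : ℤ => Y) ∞ :=
  LinearEquiv.toContinuousLinearEquivOfBounds
    { toFun := fun x => ⟨fun n => S (n + 1) (x (n + 1)), memℓp_infty ⟨C * ‖x‖, by
        rintro _ ⟨n, rfl⟩
        exact (h1 _ _).trans (mul_le_mul_of_nonneg_left
          (lp.norm_apply_le_norm ENNReal.top_ne_zero x _) hC)⟩⟩
      invFun := fun x => ⟨fun n => (S n).symm (x (n - 1)), memℓp_infty ⟨C * ‖x‖, by
        rintro _ ⟨n, rfl⟩
        exact (h2 _ _).trans (mul_le_mul_of_nonneg_left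
          (lp.norm_apply_le_norm ENNReal.top_ne_zero x _) hC)⟩⟩
      map_add' := fun x y => by ext n; exact map_add (S (n + 1)) _ _
      map_smul' := fun c x => by ext n; exact map_smul (S (n + 1)) _ _
      left_inv := fun x => by
        ext n
        change (S n).symm (S (n - 1 + 1) (x (n - 1 + 1))) = x n
        simp
      right_inv := fun x => by
        ext n
        change S (n + 1) ((S (n + 1)).symm (x (n + 1 - 1))) = x n
        simp } C C
    (fun x => lp.norm_le_of_forall_le (by positivity) fun n => (h1 _ _).trans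
      (mul_le_mul_of_nonneg_left (lp.norm_apply_le_norm ENNReal.top_ne_zero x _) hC))
    (fun x => lp.norm_le_of_forall_le (by positivity) fun n => (h2 _ _).trans
      (mul_le_mul_of_nonneg_left (lp.norm_apply_le_norm ENNReal.top_ne_zero x _) hC))

end

noncomputable def al (m : ℤ) : ℂ := if 1 ≤ m then 2 else 2⁻¹

noncomputable def ga (m : ℤ) : ℂ := if m = 0 then 1 else 0

theorem al_ne (m : ℤ) : al m ≠ 0 := by unfold al; split_ifs <;> norm_num

theorem al_le (m : ℤ) : ‖al m‖ ≤ 2 ∧ ‖(al m)⁻¹‖ ≤ 2 := by unfold al; split_ifs <;> norm_num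

theorem ga_le (m : ℤ) : ‖ga m‖ ≤ 1 := by unfold ga; split_ifs <;> norm_num

open ContinuousLinearMap in
noncomputable def S (m : ℤ) : (A × Q) ≃L[ℂ] (A × Q) :=
  ContinuousLinearEquiv.equivOfInverse
    ((al m • fst ℂ A Q).prod ((al m)⁻¹ • snd ℂ A Q + ga m • q ∘L fst ℂ A Q))
    (((al m)⁻¹ • fst ℂ A Q).prod (al m • snd ℂ A Q - ga m • q ∘L fst ℂ A Q))
    (fun x => by ext1 <;> simp [smul_smul, al_ne, mul_comm])
    (fun x => by ext1 <;> simp [smul_smul, al_ne, mul_comm, smul_sub])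

theorem S_apply (m : ℤ) (x : A × Q) :
    S m x = (al m • x.1, (al m)⁻¹ • x.2 + ga m • q x.1) := rfl

theorem S_symm (m : ℤ) (x : A × Q) :
    (S m).symm x = ((al m)⁻¹ • x.1, al m • x.2 - ga m • q x.1) := rfl

theorem bnd (x : A × Q) (a b c : ℂ) (ha : ‖a‖ ≤ 2) (hb : ‖b‖ ≤ 2) (hc : ‖c‖ ≤ 1) :
    ‖a • x.1‖ ≤ 3 * ‖x‖ ∧ ‖b • x.2‖ + ‖c • q x.1‖ ≤ 3 * ‖x‖ := by
  have h1 := norm_fst_le x
  have h2 := norm_snd_le x
  have h3 := q_le x.1
  simp only [norm_smul]
  constructor <;> nlinarith [norm_nonneg x.1, norm_nonneg x.2, norm_nonneg (q x.1), norm_nonneg a,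
    norm_nonneg b, norm_nonneg c]

theorem S1 (m : ℤ) (x : A × Q) : ‖S m x‖ ≤ 3 * ‖x‖ := by
  have := bnd x _ _ _ (al_le m).1 (al_le m).2 (ga_le m)
  rw [S_apply, norm_prod_le_iff]
  exact ⟨this.1, (norm_add_le _ _).trans this.2⟩

theorem S2 (m : ℤ) (x : A × Q) : ‖(S m).symm x‖ ≤ 3 * ‖x‖ := by
  have := bnd x _ _ _ (al_le m).2 (al_le m).1 (ga_le m)
  rw [S_symm, norm_prod_le_iff]
  exact ⟨this.1, (norm_sub_le _ _).trans this.2⟩

theorem diag (w : ℤ → A × Q) (C : ℝ) (hw : ∀ n, ‖w n‖ ≤ C) :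
    ∃ u : ℤ → A × Q, (∀ n, ‖u n‖ ≤ 18 * C) ∧ ∀ n, u n - S (n + 1) (u (n + 1)) = w n := by
  have h0 : 0 ≤ C := (norm_nonneg _).trans (hw 0)
  have w1 : ∀ n, ‖(w n).1‖ ≤ C := fun n => (norm_fst_le _).trans (hw n)
  have w2 : ∀ n, ‖(w n).2‖ ≤ C := fun n => (norm_snd_le _).trans (hw n)
  obtain ⟨ap, ap1, ap2⟩ := L1 (fun n => (w n).1) C w1 1
  obtain ⟨am, am1, am2⟩ := L2 (fun n => (w n).1) C w1
  obtain ⟨bp, bp1, bp2⟩ := L1 (fun n => (w n).2) C w2 1
  obtain ⟨bm, bm1, bm2⟩ := L2 (fun n => (w n).2) C w2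
  obtain ⟨a0, ha, ha'⟩ := lift (bm (-1) - (2 : ℂ) • bp 0 - (w (-1)).2)
  have hb : ‖a0‖ ≤ 14 * C := by
    have h1 := norm_sub_le (bm (-1) - (2 : ℂ) • bp 0) (w (-1)).2
    have h2 := norm_sub_le (bm (-1)) ((2 : ℂ) • bp 0)
    rw [norm_smul, Complex.norm_ofNat] at h2
    linarith [bm1 (-1), bp1 0, w2 (-1)]
  let a : ℤ → A := fun n => if 0 ≤ n then am n + (2 : ℂ) ^ (-n) • (a0 - am 0) else
    ap n + (2 : ℂ) ^ n • (a0 - ap 0)
  let b : ℤ → Q := fun n => if 0 ≤ n then bp n else bm n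
  have hz : ∀ (n : ℤ) (x y : A), n ≤ 0 → ‖x‖ ≤ 2 * C → ‖y‖ ≤ 2 * C →
      ‖x + (2 : ℂ) ^ n • (a0 - y)‖ ≤ 18 * C := by
    intro n x y hn hx hy
    have h1 := norm_add_le x ((2 : ℂ) ^ n • (a0 - y))
    rw [norm_smul, norm_zpow, Complex.norm_ofNat] at h1
    have h2 : (2 : ℝ) ^ n ≤ 1 := zpow_le_one_of_nonpos₀ one_le_two hn
    have h3 := norm_sub_le a0 y
    nlinarith [norm_nonneg (a0 - y)]
  refine ⟨fun n => (a n, b n), fun n => ?_, fun n => ?_⟩
  · rw [norm_prod_le_iff]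
    simp only [a, b]
    split_ifs with h
    · exact ⟨hz _ _ _ (by omega) (am1 _) (am1 _), by linarith [bp1 n]⟩
    · exact ⟨hz _ _ _ (by omega) (ap1 _) (ap1 _), by linarith [bm1 n]⟩
  · rw [S_apply]
    simp only [a, b, al, ga]
    rcases lt_trichotomy n (-1) with h | rfl | h
    · rw [if_neg (by omega), if_neg (by omega), if_neg (by omega), if_neg (by omega),
        if_neg (by omega), if_neg (by omega)]
      ext1
      · simp only [Prod.fst_sub, zpow_add_one₀ (two_ne_zero (α := ℂ))]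
        linear_combination (norm := module) ap2 n
      · simp only [Prod.snd_sub, inv_inv, zero_smul, add_zero]
        exact bm2 n
    · have := ap2 (-1)
      norm_num at this ⊢
      ext1
      · simp only [Prod.fst_sub]
        linear_combination (norm := module) this
      · simp only [Prod.snd_sub, ha]
        module
    · rw [if_pos (by omega), if_pos (by omega), if_pos (by omega), if_pos (by omega),
        if_pos (by omega), if_neg (by omega)]
      ext1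
      · simp only [Prod.fst_sub, neg_add, zpow_add₀ (two_ne_zero (α := ℂ)), zpow_neg_one]
        linear_combination (norm := module) am2 n
      · simp only [Prod.snd_sub, zero_smul, add_zero]
        exact bp2 n

noncomputable def σ := shift S 3 (by norm_num) S1 S2

theorem σ_apply (x : lp (fun _ : ℤ => A × Q) ∞) (n : ℤ) : σ x n = S (n + 1) (x (n + 1)) := rfl

/-- A shift operator on `ℓ∞(ℤ, X)` with the shadowing property that is not generalized
hyperbolic. -/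
theorem result :
    ∃ (X B : Type) (_ : NormedAddCommGroup X) (_ : NormedSpace ℂ X) (_ : CompleteSpace X)
      (_ : NormedAddCommGroup B) (_ : NormedSpace ℂ B) (_ : CompleteSpace B)
      (ι : B →ₗ[ℂ] (ℤ → X)) (S : ℤ → X ≃L[ℂ] X) (σ : B ≃L[ℂ] B),
      IsLinf ι ∧ IsShift ι S σ ∧ Shadowing σ ∧ ¬ GenHyp σ := by
  refine ⟨A × Q, lp (fun _ : ℤ => A × Q) ∞, inferInstance, inferInstance, inferInstance,
    inferInstance, inferInstance, inferInstance,
    { toFun := fun x n => x n, map_add' := fun _ _ => rfl, map_smul' := fun _ _ => rfl }, S, σ,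
    ⟨fun x y h => lp.ext h, fun x => lp.isLUB_norm x, fun u hu => ⟨⟨u, memℓp_infty hu⟩, rfl⟩⟩,
    ⟨⟨3, fun n x => ⟨S1 n x, S2 n x⟩⟩, σ_apply⟩,
    ⟨18, by norm_num, fun z C hz => ?_⟩, fun h => ?_⟩
  · have h0 : 0 ≤ C := (norm_nonneg _).trans (hz 0)
    choose u u1 u2 using fun d : ℤ => diag (fun n => z (d - n - 1) n) C fun n =>
      (lp.norm_apply_le_norm ENNReal.top_ne_zero _ n).trans (hz _)
    refine ⟨fun k => ⟨fun n => u (n + k) n, memℓp_infty ⟨18 * C, by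
      rintro _ ⟨n, rfl⟩; exact u1 _ _⟩⟩, fun k => ?_,
      fun k => lp.norm_le_of_forall_le (by positivity) fun n => u1 _ _⟩
    refine lp.ext (funext fun n => ?_)
    have := u2 (n + (k + 1)) n
    rw [show n + (k + 1) - n - 1 = k by ring] at this
    rw [← this, lp.coeFn_sub, Pi.sub_apply, σ_apply]
    change u (n + (k + 1)) n - S (n + 1) (u (n + 1 + k) (n + 1)) = _
    rw [show n + 1 + k = n + (k + 1) by ring]
  · obtain ⟨R, hR⟩ := right_inv σ h
    let δ : Q →L[ℂ] lp (fun _ : ℤ => A × Q) ∞ :=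
      lp.singleContinuousLinearMap ℂ (fun _ : ℤ => A × Q) ∞ (-1) ∘L ContinuousLinearMap.inr ℂ A Q
    refine noright (ContinuousLinearMap.fst ℂ A Q ∘L lp.evalCLM ℂ (fun _ : ℤ => A × Q) ∞ 0 ∘L
      R ∘L δ) fun b => ?_
    set x := R (δ b) with hx
    change q (x 0).1 = b
    have e : ∀ n, (al (n + 1))⁻¹ • (x (n + 1)).2 + ga (n + 1) • q (x (n + 1)).1 - (x n).2 =
        (δ b n).2 := fun n => congrArg (fun y : lp (fun _ : ℤ => A × Q) ∞ => (y n).2) (hR (δ b))
    have d0 : ∀ n, n ≠ -1 → (δ b n).2 = 0 := fun n hn =>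
      congrArg Prod.snd (lp.single_apply_ne (E := fun _ : ℤ => A × Q) ∞ (-1) (0, b) hn)
    have d1 : (δ b (-1)).2 = b :=
      congrArg Prod.snd (lp.single_apply_self (E := fun _ : ℤ => A × Q) ∞ (-1) (0, b))
    have hb : ∀ n, ‖(x n).2‖ ≤ ‖x‖ := fun n =>
      (norm_snd_le _).trans (lp.norm_apply_le_norm ENNReal.top_ne_zero x n)
    have v1 := vanish (fun j : ℕ => (x j).2) ‖x‖ (fun j => hb _) (fun j => by
      have := e j
      rw [d0 _ (by omega), al, ga, if_pos (by omega), if_neg (by omega)] at this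
      push_cast
      linear_combination (norm := module) (2 : ℂ) • this)
    have v2 := vanish (fun j : ℕ => (x (-1 - j)).2) ‖x‖ (fun j => hb _) (fun j => by
      have := e (-1 - (j + 1 : ℕ))
      rw [d0 _ (by omega), al, ga, if_neg (by omega), if_neg (by omega),
        show (-1 - (j + 1 : ℕ) + 1 : ℤ) = -1 - j by push_cast; ring, inv_inv] at this
      linear_combination (norm := module) -this)
    have := e (-1)
    simp only [Nat.cast_zero, sub_zero] at v1 v2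
    rw [d1, show (-1 + 1 : ℤ) = 0 by norm_num, v1, v2, ga, if_pos rfl] at this
    simpa using this

end Pool.Agent.Results.MP_0764b2_an.ShadowNotGH
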